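import Pool.Agent.W735.DP.Defs
import Pool.Agent.S06401

/-!
Sets with gaps tending to infinity are interpolation sets for distal systems, complex version
(deduced from `Pool.Agent.S06401.result`).
-/

set_option autoImplicit false

namespace Pool.Agent.W735.DP

open Filter Topology

lemma iter_prod {X Y : Type} (f : X → X) (g : Y → Y) (n : ℕ) (p : X × Y) :
    (fun q : X × Y => (f q.1, g q.2))^[n] p = (f^[n] p.1, g^[n] p.2) := by
  induction n with
  | zero => rfl
  | succ n ih => rw [Function.iterate_succ_apply', Function.iterate_succ_apply',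
      Function.iterate_succ_apply', ih]

theorem interp_of_gaps {n : ℕ → ℕ} (hn : StrictMono n)
    (hg : Tendsto (fun k => n (k + 1) - n k) atTop atTop) : IsInterpolationSet (Set.range n) := by
  rintro f ⟨C, hC⟩
  obtain ⟨X, mX, cX, T, hT, x, F, hF, hFx⟩ := Pool.Agent.S06401.result n hn hg
    (fun k => (f (n k)).re) ⟨C, fun k => (Complex.abs_re_le_norm _).trans (hC _ ⟨k, rfl⟩)⟩
  obtain ⟨Y, mY, cY, R, hR, y, K, hK, hKy⟩ := Pool.Agent.S06401.result n hn hg
    (fun k => (f (n k)).im) ⟨C, fun k => (Complex.abs_im_le_norm _).trans (hC _ ⟨k, rfl⟩)⟩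
  have e1 : ∀ m, (⇑(T.prodCongr R))^[m] = fun p => (T^[m] p.1, R^[m] p.2) := by
    intro m
    funext p
    exact iter_prod T R m p
  have e2 : ∀ m, (⇑(T.prodCongr R).symm)^[m] = fun p => (T.symm^[m] p.1, R.symm^[m] p.2) := by
    intro m
    funext p
    exact iter_prod T.symm R.symm m p
  refine ⟨X × Y, inferInstance, inferInstance, T.prodCongr R, ?_, (x, y),
    fun p => (F p.1 : ℂ) + (K p.2 : ℂ) * Complex.I, ?_, ?_⟩
  · rintro ⟨a, b⟩ ⟨a', b'⟩ hne
    by_cases h : a = a'
    · have hb : b ≠ b' := by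
        rintro rfl
        exact hne (by rw [h])
      obtain ⟨ε, hε, h1⟩ := hR b b' hb
      refine ⟨ε, hε, fun m => ?_⟩
      rw [e1, e2]
      exact ⟨(h1 m).1.trans (le_max_right _ _), (h1 m).2.trans (le_max_right _ _)⟩
    · obtain ⟨ε, hε, h1⟩ := hT a a' h
      refine ⟨ε, hε, fun m => ?_⟩
      rw [e1, e2]
      exact ⟨(h1 m).1.trans (le_max_left _ _), (h1 m).2.trans (le_max_left _ _)⟩
  · exact (Complex.continuous_ofReal.comp (hF.comp continuous_fst)).add
      ((Complex.continuous_ofReal.comp (hK.comp continuous_snd)).mul continuous_const)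
  · rintro _ ⟨k, rfl⟩
    rw [e1]
    simp only [hFx, hKy]
    exact Complex.re_add_im _

end Pool.Agent.W735.DP
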