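import Mathlib

/-!
Interpolation sets for distal systems.
-/

set_option autoImplicit false

namespace Pool.Agent.W735.DP

/-- `T` is distal: `inf_{n ∈ ℤ} d(Tⁿ x, Tⁿ y) > 0` for all `x ≠ y` -/
def IsDistal {X : Type} [MetricSpace X] (T : X ≃ₜ X) : Prop :=
  ∀ x y : X, x ≠ y → ∃ ε : ℝ, 0 < ε ∧ ∀ n : ℕ,
    ε ≤ dist (T^[n] x) (T^[n] y) ∧ ε ≤ dist (T.symm^[n] x) (T.symm^[n] y)

/-- `S` is an interpolation set for distal systems: every bounded `f : S → ℂ` is of the form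
`f n = F (Tⁿ x)`, `n ∈ S`, for a distal homeomorphism `T` of a compact metric space `X`, a point
`x ∈ X` and a continuous `F : X → ℂ` -/
def IsInterpolationSet (S : Set ℕ) : Prop :=
  ∀ f : ℕ → ℂ, (∃ C : ℝ, ∀ n ∈ S, ‖f n‖ ≤ C) →
    ∃ (X : Type) (_ : MetricSpace X) (_ : CompactSpace X) (T : X ≃ₜ X), IsDistal T ∧
      ∃ (x : X) (F : X → ℂ), Continuous F ∧ ∀ n ∈ S, F (T^[n] x) = f n

end Pool.Agent.W735.DP
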