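import Pool.Agent.W735.DP.Sieve

/-!
The exceptional set.
-/

set_option autoImplicit false

namespace Pool.Agent.W735.DP

open Finset Filter Topology

/-- number of elements of `E` up to `x` -/
noncomputable def cnt (E : Set ℕ) (x : ℕ) : ℕ := Set.ncard {n | n ∈ E ∧ n ≤ x}

open Classical in
/-- slowly growing function attached to `D` and `ω` -/
noncomputable def HH (D : ℕ → ℝ) (ω : ℕ → ℝ) (n : ℕ) : ℕ :=
  Nat.findGreatest (fun k => ∀ x, n ≤ x → D k ≤ ω x) n

lemma HH_mono (D ω : ℕ → ℝ) : Monotone (HH D ω) := by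
  classical
  intro a b hab
  unfold HH
  refine (Nat.findGreatest_mono_right _ hab).trans ?_
  refine Nat.findGreatest_mono_left ?_ _
  intro k hk x hx
  exact hk x (hab.trans hx)

lemma HH_tendsto (D ω : ℕ → ℝ) (hω : Tendsto ω atTop atTop) : Tendsto (HH D ω) atTop atTop := by
  classical
  rw [tendsto_atTop]
  intro K
  obtain ⟨n₀, hn₀⟩ := eventually_atTop.1 (hω.eventually_ge_atTop (D K))
  filter_upwards [eventually_ge_atTop (max n₀ K)] with n hn
  unfold HH
  refine Nat.le_findGreatest ((le_max_right _ _).trans hn) ?_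
  intro x hx
  exact hn₀ x ((le_max_left _ _).trans (hn.trans hx))

lemma HH_spec (D ω : ℕ → ℝ) {n : ℕ} (h : HH D ω n ≠ 0) : D (HH D ω n) ≤ ω n := by
  classical
  have := Nat.findGreatest_of_ne_zero (P := fun k => ∀ x, n ≤ x → D k ≤ ω x) (n := n) rfl h
  exact this n le_rfl

/-- the exceptional set -/
def EE (D ω : ℕ → ℝ) : Set ℕ := {p | p.Prime ∧ ∃ j, 1 ≤ j ∧ j ≤ HH D ω p ∧ (p + j).Prime}

lemma cnt_EE_le (D ω : ℕ → ℝ)
    (hD : ∀ k x : ℕ, 2 ≤ x → ((cls k x).card : ℝ) ≤ D k * (x / (Real.log x) ^ 2)) {x : ℕ}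
    (hx : 2 ≤ x) (hω : 0 ≤ ω x) :
    (cnt (EE D ω) x : ℝ) ≤ ω x * (x / (Real.log x) ^ 2) := by
  classical
  have hq : 0 ≤ (x : ℝ) / (Real.log x) ^ 2 := by positivity
  have hsub : {n | n ∈ EE D ω ∧ n ≤ x} ⊆ (cls (HH D ω x) x : Set ℕ) := by
    rintro p ⟨⟨hp, j, hj1, hj2, hj⟩, hpx⟩
    rw [Finset.mem_coe]
    unfold cls
    rw [mem_filter, mem_range]
    exact ⟨by omega, hp, j, hj1, hj2.trans (HH_mono D ω hpx), hj⟩
  have h1 : cnt (EE D ω) x ≤ (cls (HH D ω x) x).card := by
    unfold cnt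
    rw [← Set.ncard_coe_finset]
    exact Set.ncard_le_ncard hsub (Finset.finite_toSet _)
  have h2 : (cnt (EE D ω) x : ℝ) ≤ (cls (HH D ω x) x).card := by exact_mod_cast h1
  by_cases h0 : HH D ω x = 0
  · have h3 : (cls (HH D ω x) x).card = 0 := by
      rw [Finset.card_eq_zero, h0]
      unfold cls
      rw [filter_eq_empty_iff]
      rintro p _ ⟨_, j, hj1, hj2, _⟩
      omega
    rw [h3] at h2
    have : 0 ≤ ω x * (x / (Real.log x) ^ 2) := by positivity
    push_cast at h2
    linarith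
  · refine h2.trans ((hD _ x hx).trans ?_)
    exact mul_le_mul_of_nonneg_right (HH_spec D ω h0) hq

/-- for every `ω → ∞` there is a set `E` of primes with `#E(x) ≤ ω(x) x / log² x` and
`#E(x) = o(π(x))` such that the gaps of the remaining primes tend to infinity -/
theorem exists_E (ω : ℕ → ℝ) (hω : Tendsto ω atTop atTop) :
    ∃ E : Set ℕ, (∀ p ∈ E, p.Prime) ∧
      (∀ᶠ x : ℕ in atTop, (cnt E x : ℝ) ≤ ω x * (x / (Real.log x) ^ 2)) ∧
      Tendsto (fun x : ℕ => (cnt E x : ℝ) / cnt {p | p.Prime} x) atTop (𝓝 0) ∧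
      ∃ n : ℕ → ℕ, StrictMono n ∧ Tendsto (fun k => n (k + 1) - n k) atTop atTop ∧
        Set.range n = {p | p.Prime ∧ p ∉ E} := by
  classical
  obtain ⟨D, hD⟩ := sieve_k
  set v : ℕ → ℝ := fun x => min (ω x) (Real.sqrt (Real.log x)) with hv
  have hlog : Tendsto (fun x : ℕ => Real.log x) atTop atTop :=
    Real.tendsto_log_atTop.comp tendsto_natCast_atTop_atTop
  have hsq : Tendsto (fun x : ℕ => Real.sqrt (Real.log x)) atTop atTop :=
    Real.tendsto_sqrt_atTop.comp hlog
  have hvt : Tendsto v atTop atTop := by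
    rw [tendsto_atTop]
    intro b
    filter_upwards [hω.eventually_ge_atTop b, hsq.eventually_ge_atTop b] with x h1 h2
    exact le_min h1 h2
  have hb : ∀ᶠ x : ℕ in atTop, (cnt (EE D v) x : ℝ) ≤ v x * (x / (Real.log x) ^ 2) := by
    filter_upwards [eventually_ge_atTop 2, hvt.eventually_ge_atTop 0] with x h1 h2
    exact cnt_EE_le D v hD h1 h2
  have hpi : ∀ x : ℕ, cnt {p | p.Prime} x = Nat.primeCounting x := by
    intro x
    unfold cnt
    rw [Nat.primeCounting, Nat.primeCounting', Nat.count_eq_card_filter_range,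
      ← Set.ncard_coe_finset]
    congr 1
    ext p
    simp only [Set.mem_setOf_eq, coe_filter, mem_range]
    constructor
    · rintro ⟨h1, h2⟩
      exact ⟨by omega, h1⟩
    · rintro ⟨h1, h2⟩
      exact ⟨h2, by omega⟩
  have hpilow : ∀ᶠ x : ℕ in atTop, (x : ℝ) / (2 * Real.log x) ≤ Nat.primeCounting x := by
    have h1 : Tendsto (fun x : ℕ => Real.log ((x : ℝ) + 1) / x) atTop (𝓝 0) := by
      have h2 : Tendsto (fun y : ℝ => Real.log y / y) atTop (𝓝 0) :=
        Real.isLittleO_log_id_atTop.tendsto_div_nhds_zero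
      have h3 : Tendsto (fun x : ℕ => Real.log ((x : ℝ) + 1) / ((x : ℝ) + 1)) atTop (𝓝 0) := by
        have h4 : Tendsto (fun x : ℕ => (x : ℝ) + 1) atTop atTop :=
          tendsto_atTop_add_const_right _ _ tendsto_natCast_atTop_atTop
        exact h2.comp h4
      have h5 : Tendsto (fun x : ℕ => 2 * (Real.log ((x : ℝ) + 1) / ((x : ℝ) + 1))) atTop (𝓝 0) := by
        simpa using h3.const_mul 2
      refine squeeze_zero' ?_ ?_ h5
      · filter_upwards with x
        have : 0 ≤ Real.log ((x : ℝ) + 1) := Real.log_nonneg (by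
          have : (0 : ℝ) ≤ x := by positivity
          linarith)
        positivity
      · filter_upwards [eventually_ge_atTop 1] with x hx
        have hx1 : (1 : ℝ) ≤ x := by exact_mod_cast hx
        have hl0 : 0 ≤ Real.log ((x : ℝ) + 1) := Real.log_nonneg (by linarith)
        rw [← mul_div_assoc, div_le_div_iff₀ (by linarith) (by linarith)]
        nlinarith
    filter_upwards [h1.eventually (gt_mem_nhds (show (0 : ℝ) < 1 / 10 by norm_num)),
      eventually_ge_atTop 2] with x h2 hx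
    have hx2 : (2 : ℝ) ≤ x := by exact_mod_cast hx
    have hl : 0 < Real.log x := Real.log_pos (by linarith)
    refine le_trans ?_ (Chebyshev.pi_ge x)
    rw [div_le_div_iff₀ (by positivity) hl]
    have h3 : Real.log ((x : ℝ) + 1) < 1 / 10 * x := by
      rwa [div_lt_iff₀ (by linarith)] at h2
    have h4 := Real.log_two_gt_d9
    nlinarith [mul_pos hl (show (0 : ℝ) < x by linarith)]
  have hdens : Tendsto (fun x : ℕ => (cnt (EE D v) x : ℝ) / cnt {p | p.Prime} x) atTop (𝓝 0) := by
    have h1 : Tendsto (fun x : ℕ => 2 / Real.sqrt (Real.log x)) atTop (𝓝 0) :=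
      hsq.const_div_atTop 2
    refine squeeze_zero' ?_ ?_ h1
    · filter_upwards with x
      positivity
    · filter_upwards [hb, hpilow, eventually_ge_atTop 2] with x h2 h3 hx
      rw [hpi]
      have hx2 : (2 : ℝ) ≤ x := by exact_mod_cast hx
      have hl : 0 < Real.log x := Real.log_pos (by linarith)
      have hs : 0 < Real.sqrt (Real.log x) := Real.sqrt_pos.2 hl
      have hss : Real.sqrt (Real.log x) * Real.sqrt (Real.log x) = Real.log x :=
        Real.mul_self_sqrt hl.le
      have hp0 : 0 < (Nat.primeCounting x : ℝ) := lt_of_lt_of_le (by positivity) h3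
      rw [div_le_div_iff₀ hp0 hs]
      have h4 : (cnt (EE D v) x : ℝ) ≤ Real.sqrt (Real.log x) * (x / (Real.log x) ^ 2) := by
        refine h2.trans ?_
        have : v x ≤ Real.sqrt (Real.log x) := min_le_right _ _
        gcongr
      calc (cnt (EE D v) x : ℝ) * Real.sqrt (Real.log x)
          ≤ Real.sqrt (Real.log x) * (x / (Real.log x) ^ 2) * Real.sqrt (Real.log x) := by gcongr
        _ = (Real.sqrt (Real.log x) * Real.sqrt (Real.log x)) * (x / (Real.log x) ^ 2) := by ring
        _ = 2 * (x / (2 * Real.log x)) := by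
          rw [hss]
          field_simp
        _ ≤ 2 * Nat.primeCounting x := by gcongr
  have hinf : {p | p.Prime ∧ p ∉ EE D v}.Infinite := by
    intro hfin
    have h1 : ∀ᶠ x : ℕ in atTop, (cnt (EE D v) x : ℝ) / cnt {p | p.Prime} x < 1 / 2 :=
      hdens.eventually (gt_mem_nhds (by norm_num))
    have h2 : Tendsto (fun x : ℕ => (Nat.primeCounting x : ℝ)) atTop atTop :=
      tendsto_natCast_atTop_atTop.comp Nat.tendsto_primeCounting
    obtain ⟨x, hx1, hx2⟩ := (h1.and (h2.eventually_gt_atTop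
      (2 * ({p | p.Prime ∧ p ∉ EE D v}.ncard : ℝ)))).exists
    rw [hpi] at hx1
    have h3 : Nat.primeCounting x ≤ cnt (EE D v) x + {p | p.Prime ∧ p ∉ EE D v}.ncard := by
      rw [← hpi]
      unfold cnt
      refine le_trans (Set.ncard_le_ncard ?_ ?_) (Set.ncard_union_le _ _)
      · rintro p ⟨hp, hpx⟩
        by_cases hpE : p ∈ EE D v
        · exact Or.inl ⟨hpE, hpx⟩
        · exact Or.inr ⟨hp, hpE⟩
      · refine Set.Finite.union ?_ hfin
        exact (Set.finite_Iic x).subset fun p hp => hp.2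
    have h4 : (Nat.primeCounting x : ℝ) ≤ cnt (EE D v) x +
        ({p | p.Prime ∧ p ∉ EE D v}.ncard : ℝ) := by exact_mod_cast h3
    have h5 : (0 : ℝ) ≤ ({p | p.Prime ∧ p ∉ EE D v}.ncard : ℝ) := by positivity
    have h6 : (0 : ℝ) < Nat.primeCounting x := by linarith
    rw [div_lt_iff₀ h6] at hx1
    linarith
  refine ⟨EE D v, fun p hp => hp.1, ?_, hdens, Nat.nth (fun p => p.Prime ∧ p ∉ EE D v),
    Nat.nth_strictMono hinf, ?_, ?_⟩
  · filter_upwards [hb, eventually_ge_atTop 2] with x h1 hx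
    refine h1.trans ?_
    have : v x ≤ ω x := min_le_left _ _
    gcongr
  · set n := Nat.nth (fun p => p.Prime ∧ p ∉ EE D v) with hn
    have hmono : StrictMono n := Nat.nth_strictMono hinf
    have hmem : ∀ k, (n k).Prime ∧ n k ∉ EE D v := fun k => Nat.nth_mem_of_infinite hinf k
    refine tendsto_atTop_mono (f := fun k => HH D v (n k)) (fun k => ?_)
      ((HH_tendsto D v hvt).comp hmono.tendsto_atTop)
    by_contra hlt
    push Not at hlt
    refine (hmem k).2 ⟨(hmem k).1, n (k + 1) - n k, ?_, hlt.le, ?_⟩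
    · have := hmono (Nat.lt_succ_self k)
      simp only [Nat.succ_eq_add_one] at this
      omega
    · have h1 := hmono (Nat.lt_succ_self k)
      simp only [Nat.succ_eq_add_one] at h1
      rw [Nat.add_sub_cancel' h1.le]
      exact (hmem (k + 1)).1
  · ext p
    constructor
    · rintro ⟨k, rfl⟩
      exact Nat.nth_mem_of_infinite hinf k
    · intro hp
      exact ⟨Nat.count (fun p => p.Prime ∧ p ∉ EE D v) p, Nat.nth_count hp⟩

end Pool.Agent.W735.DP
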