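import Pool.Agent.W735.DP.Defs

/-!
Furstenberg's theorem: in a distal system every point returns along every IP set; a combinatorial
property of interpolation sets.
-/

set_option autoImplicit false

namespace Pool.Agent.W735.DP

open Filter Topology Finset

attribute [local instance] Ultrafilter.add

lemma FS_sum (a : Stream' ℕ) (m : ℕ) (hm : m ∈ Hindman.FS a) :
    ∃ s : Finset ℕ, s.Nonempty ∧ m = ∑ i ∈ s, a.get i := by
  induction hm with
  | head' a => exact ⟨{0}, singleton_nonempty 0, by rw [sum_singleton]⟩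
  | tail' a m _ ih =>
    obtain ⟨s, hs, rfl⟩ := ih
    exact ⟨s.map ⟨Nat.succ, Nat.succ_injective⟩, hs.map, by
      rw [sum_map]
      rfl⟩
  | cons' a m _ ih =>
    obtain ⟨s, hs, rfl⟩ := ih
    refine ⟨insert 0 (s.map ⟨Nat.succ, Nat.succ_injective⟩), insert_nonempty _ _, ?_⟩
    rw [sum_insert, sum_map]
    · rfl
    · simp

/-- idempotent ultrafilter concentrated on the subset sums of `x` -/
lemma exists_idem (x : ℕ → ℕ) : ∃ V : Ultrafilter ℕ,
    (∀ p : ℕ → Prop, (∀ᶠ m in V, p m) → ∀ᶠ m in V, ∀ᶠ m' in V, p (m + m')) ∧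
    ∀ᶠ m in V, ∃ s : Finset ℕ, s.Nonempty ∧ m = ∑ i ∈ s, x i := by
  obtain ⟨V, hV, hFS⟩ := Hindman.exists_idempotent_ultrafilter_le_FS (M := ℕ) (x : Stream' ℕ)
  refine ⟨V, fun p hp => ?_, ?_⟩
  · rw [← Ultrafilter.eventually_add, hV]
    exact hp
  · filter_upwards [hFS] with m hm
    exact FS_sum _ m hm

/-- Furstenberg's theorem -/
theorem ip_rec {X : Type} [MetricSpace X] [CompactSpace X] {T : X ≃ₜ X} (hT : IsDistal T)
    (V : Ultrafilter ℕ)
    (hV : ∀ p : ℕ → Prop, (∀ᶠ m in V, p m) → ∀ᶠ m in V, ∀ᶠ m' in V, p (m + m')) (y : X) :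
    Tendsto (fun m : ℕ => T^[m] y) V (𝓝 y) := by
  obtain ⟨z, -, hz⟩ := isCompact_univ.ultrafilter_le_nhds (V.map fun m : ℕ => T^[m] y)
    (by simp)
  have hz' : Tendsto (fun m : ℕ => T^[m] y) V (𝓝 z) := hz
  have hTc : ∀ m : ℕ, Continuous (T^[m]) := fun m => T.continuous.iterate m
  have hzz : Tendsto (fun m : ℕ => T^[m] z) V (𝓝 z) := by
    rw [Metric.tendsto_nhds]
    intro ε hε
    have h1 : ∀ᶠ m in V, T^[m] y ∈ Metric.closedBall z (ε / 2) :=
      hz'.eventually (Metric.closedBall_mem_nhds z (by linarith))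
    filter_upwards [hV _ h1] with m hm
    have h2 : T^[m] z ∈ Metric.closedBall z (ε / 2) := by
      refine Metric.isClosed_closedBall.mem_of_tendsto (((hTc m).tendsto z).comp hz') ?_
      filter_upwards [hm] with m' hm'
      simp only [Function.comp_apply]
      rwa [← Function.iterate_add_apply]
    rw [Metric.mem_closedBall] at h2
    linarith
  have hzy : z = y := by
    by_contra hne
    obtain ⟨ε, hε, h⟩ := hT z y hne
    have h1 : Tendsto (fun m : ℕ => dist (T^[m] z) (T^[m] y)) V (𝓝 (dist z z)) := hzz.dist hz'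
    rw [dist_self] at h1
    obtain ⟨m, hm⟩ := (h1.eventually (gt_mem_nhds hε)).exists
    exact absurd (h m).1 (not_le.2 hm)
  rw [hzy] at hz'
  exact hz'

/-- An interpolation set for distal systems does not contain infinitely many translates of the
finite cube of subset sums of `x 0, ..., x (k-1)`, for large `k`. -/
theorem cube_finite {S : Set ℕ} (hS : IsInterpolationSet S) (x : ℕ → ℕ) (hx : ∀ i, 0 < x i) :
    ∃ k : ℕ, {n : ℕ | ∀ s ⊆ range k, n + ∑ i ∈ s, x i ∈ S}.Finite := by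
  classical
  by_contra hcon
  push Not at hcon
  have hg : ∀ k m : ℕ, ∃ n, (∀ s ⊆ range k, n + ∑ i ∈ s, x i ∈ S) ∧ m < n := by
    intro k m
    obtain ⟨n, hn, hmn⟩ := Set.Infinite.exists_gt (hcon k) m
    exact ⟨n, hn, hmn⟩
  choose g hg1 hg2 using hg
  set n : ℕ → ℕ := fun k => Nat.rec (g 0 0) (fun k r => g (k + 1) (r + ∑ i ∈ range k, x i)) k
    with hn
  have hn1 : ∀ k, ∀ s ⊆ range k, n k + ∑ i ∈ s, x i ∈ S := by
    intro k
    cases k with
    | zero => exact hg1 0 0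
    | succ k => exact hg1 (k + 1) _
  have hn2 : ∀ k, n k + ∑ i ∈ range k, x i < n (k + 1) := fun k => hg2 (k + 1) _
  have hmono : StrictMono n := strictMono_nat_of_lt_succ fun k =>
    lt_of_le_of_lt (Nat.le_add_right _ _) (hn2 k)
  obtain ⟨X, mX, cX, T, hT, y0, F, hF, hFS⟩ := hS (fun m => if m ∈ Set.range n then 1 else 0)
    ⟨1, fun m _ => by
      by_cases h : m ∈ Set.range n
      · simp [h]
      · simp [h]⟩
  have hv1 : ∀ k, F (T^[n k] y0) = 1 := by
    intro k
    have h1 : n k ∈ S := by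
      have := hn1 k ∅ (empty_subset _)
      simpa using this
    rw [hFS _ h1]
    simp
  have hv0 : ∀ (s : Finset ℕ) (k : ℕ), s.Nonempty → s ⊆ range k →
      F (T^[n k + ∑ i ∈ s, x i] y0) = 0 := by
    intro s k hs hsk
    rw [hFS _ (hn1 k s hsk), if_neg]
    rintro ⟨j, hj⟩
    have hpos : 0 < ∑ i ∈ s, x i := sum_pos (fun i _ => hx i) hs
    have hle : ∑ i ∈ s, x i ≤ ∑ i ∈ range k, x i :=
      sum_le_sum_of_subset_of_nonneg hsk (fun i _ _ => Nat.zero_le _)
    have h1 : n k < n j := by omega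
    have h2 : n j < n (k + 1) := by
      have := hn2 k
      omega
    have h3 : k < j := hmono.lt_iff_lt.1 h1
    have h4 : j < k + 1 := (hmono.lt_iff_lt (a := j) (b := k + 1)).1 h2
    omega
  have hTc : ∀ m : ℕ, Continuous (T^[m]) := fun m => T.continuous.iterate m
  obtain ⟨y, -, hy⟩ := isCompact_univ.ultrafilter_le_nhds
    ((hyperfilter ℕ).map fun k : ℕ => T^[n k] y0) (by simp)
  have hy' : Tendsto (fun k : ℕ => T^[n k] y0) (hyperfilter ℕ) (𝓝 y) := hy
  have hFy : F y = 1 := by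
    have h1 : Tendsto (fun k : ℕ => F (T^[n k] y0)) (hyperfilter ℕ) (𝓝 (F y)) :=
      (hF.tendsto y).comp hy'
    simp only [hv1] at h1
    exact tendsto_nhds_unique h1 tendsto_const_nhds
  have hFm : ∀ s : Finset ℕ, s.Nonempty → F (T^[∑ i ∈ s, x i] y) = 0 := by
    intro s hs
    have h1 : Tendsto (fun k : ℕ => F (T^[∑ i ∈ s, x i] (T^[n k] y0))) (hyperfilter ℕ)
        (𝓝 (F (T^[∑ i ∈ s, x i] y))) :=
      ((hF.comp (hTc _)).tendsto y).comp hy'
    have h2 : ∀ᶠ k : ℕ in hyperfilter ℕ, F (T^[∑ i ∈ s, x i] (T^[n k] y0)) = 0 := by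
      have h3 : ∀ᶠ k : ℕ in atTop, s ⊆ range k := by
        filter_upwards [eventually_gt_atTop (s.sup id)] with k hk i hi
        rw [mem_range]
        exact lt_of_le_of_lt (le_sup (f := id) hi) hk
      have h4 : ∀ᶠ k : ℕ in hyperfilter ℕ, s ⊆ range k := by
        rw [← Nat.cofinite_eq_atTop] at h3
        exact hyperfilter_le_cofinite h3
      filter_upwards [h4] with k hk
      rw [← Function.iterate_add_apply, add_comm]
      exact hv0 s k hs hk
    have h5 : Tendsto (fun k : ℕ => F (T^[∑ i ∈ s, x i] (T^[n k] y0))) (hyperfilter ℕ)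
        (𝓝 (0 : ℂ)) := tendsto_const_nhds.congr' (h2.mono fun k hk => hk.symm)
    exact tendsto_nhds_unique h1 h5
  obtain ⟨V, hV, hVs⟩ := exists_idem x
  have h1 : Tendsto (fun m : ℕ => F (T^[m] y)) V (𝓝 (F y)) :=
    (hF.tendsto y).comp (ip_rec hT V hV y)
  have h2 : ∀ᶠ m : ℕ in V, F (T^[m] y) = 0 := by
    filter_upwards [hVs] with m hm
    obtain ⟨s, hs, rfl⟩ := hm
    exact hFm s hs
  have h3 : Tendsto (fun m : ℕ => F (T^[m] y)) V (𝓝 (0 : ℂ)) :=
    tendsto_const_nhds.congr' (h2.mono fun k hk => hk.symm)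
  have h4 := tendsto_nhds_unique h1 h3
  rw [hFy] at h4
  exact one_ne_zero h4

end Pool.Agent.W735.DP
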