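import Pool.Agent.Helper403.Pairs

/-!
Prime pairs `p, p + j` with `1 ≤ j ≤ k` are sparse among the primes.
-/

set_option autoImplicit false

namespace Pool.Agent.W735.DP

open Finset Filter Topology

/-- primes `p ≤ x` such that `p + h` is prime -/
def prs (h x : ℕ) : Finset ℕ := (range (x + 1)).filter fun p => p.Prime ∧ (p + h).Prime

lemma sqrt_le_aux {x : ℝ} (hx : 2 ≤ x) : Real.sqrt x ≤ 16 * (x / (Real.log x) ^ 2) := by
  have hx0 : 0 < x := by linarith
  have hl : 0 < Real.log x := Real.log_pos (by linarith)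
  have h1 : Real.log x ≤ 4 * x ^ ((1 : ℝ) / 4) := by
    have h2 : Real.log (x ^ ((1 : ℝ) / 4)) ≤ x ^ ((1 : ℝ) / 4) - 1 :=
      Real.log_le_sub_one_of_pos (by positivity)
    rw [Real.log_rpow hx0] at h2
    linarith
  have h3 : (Real.log x) ^ 2 ≤ 16 * Real.sqrt x := by
    calc (Real.log x) ^ 2 ≤ (4 * x ^ ((1 : ℝ) / 4)) ^ 2 := by gcongr
      _ = 16 * Real.sqrt x := by
        rw [mul_pow, Real.sqrt_eq_rpow, ← Real.rpow_natCast (x ^ ((1 : ℝ) / 4)) 2,
          ← Real.rpow_mul hx0.le]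
        norm_num
  have h4 : Real.sqrt x * Real.sqrt x = x := Real.mul_self_sqrt hx0.le
  rw [← mul_div_assoc, le_div_iff₀ (by positivity)]
  calc Real.sqrt x * (Real.log x) ^ 2 ≤ Real.sqrt x * (16 * Real.sqrt x) := by gcongr
    _ = 16 * x := by rw [mul_left_comm, h4]

theorem sieve_h (h : ℕ) (hh : 0 < h) : ∃ C : ℝ, 0 ≤ C ∧ ∀ x : ℕ, 2 ≤ x →
    ((prs h x).card : ℝ) ≤ C * (x / (Real.log x) ^ 2) := by
  classical
  set b : ℝ := Pool.Agent.Helper403.B 1 * Pool.Agent.Helper403.B 1 *
    Pool.Agent.Helper403.B (Int.natAbs ((h : ℤ) - (0 : ℕ))) with hb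
  refine ⟨23040 * b ^ 2 + 1216, by positivity, ?_⟩
  intro x hx
  have hx2 : (2 : ℝ) ≤ x := by exact_mod_cast hx
  have hx0 : (0 : ℝ) < x := by linarith
  have hl : 0 < Real.log x := Real.log_pos (by linarith)
  have hq : 0 ≤ (x : ℝ) / (Real.log x) ^ 2 := by positivity
  rcases lt_or_ge (Real.log x) 24 with hsm | hbig
  · have h1 : ((prs h x).card : ℝ) ≤ 2 * x := by
      have : (prs h x).card ≤ x + 1 := by
        unfold prs
        exact (card_filter_le _ _).trans (by simp)
      have h2 : ((prs h x).card : ℝ) ≤ x + 1 := by exact_mod_cast this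
      linarith
    have h3 : 2 * (x : ℝ) ≤ 1152 * (x / (Real.log x) ^ 2) := by
      rw [← mul_div_assoc, le_div_iff₀ (by positivity)]
      have : (Real.log x) ^ 2 ≤ 576 := by nlinarith
      nlinarith
    have h4 : 0 ≤ 23040 * b ^ 2 * (x / (Real.log x) ^ 2) := by positivity
    nlinarith
  · set N : ℕ := ⌊Real.log x / 24⌋₊ with hN
    have hN1 : 1 ≤ N := by
      rw [hN, Nat.one_le_floor_iff]
      rw [le_div_iff₀ (by norm_num)]
      linarith
    have hNle : (N : ℝ) ≤ Real.log x / 24 := Nat.floor_le (by positivity)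
    have hNge : Real.log x / 48 ≤ N := by
      have h1 : Real.log x / 24 < N + 1 := Nat.lt_floor_add_one _
      have h2 : (1 : ℝ) ≤ N := by exact_mod_cast hN1
      linarith
    have h4 : ((4 : ℝ) ^ (8 * N)) ≤ Real.sqrt x := by
      rw [Real.sqrt_eq_rpow, ← Real.log_le_log_iff (by positivity) (by positivity),
        Real.log_pow, Real.log_rpow hx0]
      have hl4 : Real.log 4 ≤ 1.4 := by
        have : (4 : ℝ) = 2 ^ 2 := by norm_num
        rw [this, Real.log_pow]
        have := Real.log_two_lt_d9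
        push_cast
        linarith
      push_cast
      have hN0 : (0 : ℝ) ≤ N := by positivity
      nlinarith
    set S : Finset ℕ := (range (x + 1)).filter fun p =>
      p.Prime ∧ (p + h).Prime ∧ 4 ^ (2 * N) < p with hS
    set S' : Finset (ℕ × ℕ) := S.image fun p => (p, p + h) with hS'
    have hc : S'.card = S.card := card_image_of_injOn fun a _ b _ hab => by
      simpa using congrArg Prod.fst hab
    have hsv := Pool.Agent.Helper403.pairs_sieve (N := N) (a := 1) (b := 1) (k := h) (k' := 0)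
      (Y := x) hN1 one_pos one_pos hh.ne' S' (by
        intro y hy
        rw [hS', mem_image] at hy
        obtain ⟨p, hp, rfl⟩ := hy
        rw [hS, mem_filter, mem_range] at hp
        refine ⟨by ring, by omega⟩) (by
        intro y hy
        rw [hS', mem_image] at hy
        obtain ⟨p, hp, rfl⟩ := hy
        rw [hS, mem_filter, mem_range] at hp
        exact ⟨hp.2.1, hp.2.2.1, hp.2.2.2, by
          have := hp.2.2.2
          simp only
          omega⟩)
    rw [hc, ← hb] at hsv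
    have hsub : prs h x ⊆ S ∪ range (4 ^ (2 * N) + 1) := by
      intro p hp
      unfold prs at hp
      rw [mem_filter] at hp
      rw [mem_union, hS, mem_filter, mem_range (n := 4 ^ (2 * N) + 1)]
      by_cases hlt : 4 ^ (2 * N) < p
      · exact Or.inl ⟨hp.1, hp.2.1, hp.2.2, hlt⟩
      · exact Or.inr (by omega)
    have h5 : ((prs h x).card : ℝ) ≤ S.card + (4 ^ (2 * N) + 1) := by
      have : (prs h x).card ≤ S.card + (4 ^ (2 * N) + 1) :=
        (card_le_card hsub).trans ((card_union_le _ _).trans (by rw [card_range]))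
      exact_mod_cast this
    have h6 : ((4 : ℝ) ^ (2 * N)) ≤ (4 : ℝ) ^ (8 * N) :=
      pow_le_pow_right₀ (by norm_num) (by omega)
    have h7 : (1 : ℝ) ≤ (4 : ℝ) ^ (8 * N) := one_le_pow₀ (by norm_num)
    have h8 : (x : ℝ) * Nat.gcd 1 1 / (1 : ℕ) * (10 * b ^ 2 / N ^ 2) ≤
        23040 * b ^ 2 * (x / (Real.log x) ^ 2) := by
      have h9 : 10 * b ^ 2 / (N : ℝ) ^ 2 ≤ 10 * b ^ 2 / (Real.log x / 48) ^ 2 := by
        gcongr
      calc (x : ℝ) * Nat.gcd 1 1 / (1 : ℕ) * (10 * b ^ 2 / N ^ 2)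
          = x * (10 * b ^ 2 / N ^ 2) := by simp
        _ ≤ x * (10 * b ^ 2 / (Real.log x / 48) ^ 2) := by gcongr
        _ = 23040 * b ^ 2 * (x / (Real.log x) ^ 2) := by
          field_simp
          ring
    have h10 := sqrt_le_aux hx2
    nlinarith

open Classical in
/-- primes `p ≤ x` such that `p + j` is prime for some `1 ≤ j ≤ k` -/
noncomputable def cls (k x : ℕ) : Finset ℕ :=
  (range (x + 1)).filter fun p => p.Prime ∧ ∃ j, 1 ≤ j ∧ j ≤ k ∧ (p + j).Prime

theorem sieve_k : ∃ D : ℕ → ℝ, ∀ k x : ℕ, 2 ≤ x →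
    ((cls k x).card : ℝ) ≤ D k * (x / (Real.log x) ^ 2) := by
  classical
  choose! C hC0 hC using sieve_h
  refine ⟨fun k => ∑ j ∈ Icc 1 k, C j, fun k x hx => ?_⟩
  have h1 : cls k x ⊆ (Icc 1 k).biUnion fun j => prs j x := by
    intro p hp
    unfold cls at hp
    rw [mem_filter] at hp
    obtain ⟨hr, hpp, j, hj1, hj2, hj⟩ := hp
    rw [mem_biUnion]
    refine ⟨j, mem_Icc.2 ⟨hj1, hj2⟩, ?_⟩
    unfold prs
    rw [mem_filter]
    exact ⟨hr, hpp, hj⟩
  have h2 : ((cls k x).card : ℝ) ≤ ∑ j ∈ Icc 1 k, ((prs j x).card : ℝ) := by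
    have := (card_le_card h1).trans card_biUnion_le
    exact_mod_cast this
  refine h2.trans ?_
  rw [sum_mul]
  refine sum_le_sum fun j hj => ?_
  exact hC j (by have := (mem_Icc.1 hj).1; omega) x hx

end Pool.Agent.W735.DP
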